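import Pool.Agent.T9h16.QI.Spec
import Pool.Agent.T9h16.QL.Bias

set_option autoImplicit false

/-!
# The planted clique makes exactly one new `k`-clique, up to a small probability
-/

namespace Pool.Agent.T9h69.QI

open Finset
open Pool.Agent.PC34 (prob withClique labelGraph)
open Pool.Agent.T9h34.P (gr)
open Pool.Agent.T9h34.Q
open Pool.Agent.T9h16.QL
open Pool.Agent.T9h16.QI

variable {n k L : ℕ}

theorem isNClique_gr (U : Finset (Sym2 (Fin n))) (k : ℕ) (S : Finset (Fin n)) :
    (gr U).IsNClique k S ↔ S.card = k ∧ KT S ⊆ U := by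
  rw [SimpleGraph.isNClique_iff, SimpleGraph.isClique_iff]
  constructor
  · rintro ⟨h1, h2⟩
    refine ⟨h2, ?_⟩
    intro e
    induction e using Sym2.inductionOn with
    | hf x y =>
      intro he
      simp only [KT, mem_filter, mk_mem_sym2_iff, Sym2.mk_isDiag_iff] at he
      exact (h1 he.1.1 he.1.2 he.2).2
  · rintro ⟨h1, h2⟩
    refine ⟨?_, h1⟩
    intro x hx y hy hxy
    refine ⟨hxy, h2 ?_⟩
    simp only [KT, mem_filter, mk_mem_sym2_iff, Sym2.mk_isDiag_iff]
    exact ⟨⟨hx, hy⟩, hxy⟩

theorem numCl_gr (U : Finset (Sym2 (Fin n))) (k : ℕ) :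
    numCl k (gr U) =
      ((powersetCard k (univ : Finset (Fin n))).filter (fun S => KT S ⊆ U)).card := by
  unfold numCl
  exact Nat.subtype_card _ (fun S => by
    rw [isNClique_gr, mem_filter, mem_powersetCard]
    simp only [subset_univ, true_and])

/-- If `S` is not a clique and no other `k`-set with at least two elements in `S` becomes one, there
is exactly one new clique. -/
theorem numCl_plant (U : Finset (Sym2 (Fin n))) (S : Finset (Fin n)) (hS : S.card = k)
    (h1 : ¬ KT S ⊆ U)
    (h2 : ∀ S' ∈ powersetCard k (univ : Finset (Fin n)), 2 ≤ (S ∩ S').card → (S ∩ S').card < k →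
      ¬ KT S' \ KT S ⊆ U) :
    numCl k (withClique (gr U) S) = numCl k (gr U) + 1 := by
  classical
  rw [withClique_gr, numCl_gr, numCl_gr]
  have h : (powersetCard k (univ : Finset (Fin n))).filter (fun S' => KT S' ⊆ U ∪ KT S) =
      insert S ((powersetCard k (univ : Finset (Fin n))).filter (fun S' => KT S' ⊆ U)) := by
    ext S'
    simp only [mem_filter, mem_insert, mem_powersetCard]
    constructor
    · rintro ⟨⟨_, hc⟩, hsub⟩
      by_cases hSS : S' = S
      · left
        exact hSS
      right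
      refine ⟨⟨subset_univ _, hc⟩, ?_⟩
      have hlt : (S ∩ S').card < k := by
        rcases Nat.lt_or_ge (S ∩ S').card k with h | h
        · exact h
        exfalso
        have e1 : S ∩ S' = S := eq_of_subset_of_card_le inter_subset_left (by omega)
        have e2 : S ∩ S' = S' := eq_of_subset_of_card_le inter_subset_right (by omega)
        exact hSS (e2.symm.trans e1)
      by_cases h3 : 2 ≤ (S ∩ S').card
      · exfalso
        apply h2 S' (mem_powersetCard.2 ⟨subset_univ _, hc⟩) h3 hlt
        intro e he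
        rw [mem_sdiff] at he
        exact (mem_union.1 (hsub he.1)).resolve_right he.2
      · have h4 : KT S ∩ KT S' = ∅ := by
          rw [KT_inter, ← card_eq_zero, card_KT]
          exact Nat.choose_eq_zero_of_lt (by omega)
        intro e he
        rcases mem_union.1 (hsub he) with h | h
        · exact h
        · exfalso
          have h5 : e ∈ KT S ∩ KT S' := mem_inter.2 ⟨h, he⟩
          rw [h4] at h5
          exact notMem_empty _ h5
    · rintro (rfl | ⟨h, h'⟩)
      · exact ⟨⟨subset_univ _, hS⟩, subset_union_right⟩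
      · exact ⟨h, h'.trans subset_union_left⟩
  rw [h, card_insert_of_notMem]
  simp [h1]

theorem prob_prod_le {Ω Ω' : Type} [Fintype Ω] [Fintype Ω'] (A : Ω → Ω' → Prop) {B : ℝ}
    (hB : 0 ≤ B) (h : ∀ y, prob (fun x => A x y) ≤ B) :
    prob (fun z : Ω × Ω' => A z.1 z.2) ≤ B := by
  classical
  unfold Pool.Agent.PC34.prob at *
  rw [Fintype.card_prod]
  rcases Nat.eq_zero_or_pos (Fintype.card Ω * Fintype.card Ω') with h0 | h0
  · rw [h0]
    simpa using hB
  have h1 : 0 < Fintype.card Ω := Nat.pos_of_ne_zero (by rintro h; rw [h] at h0; omega)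
  have h1' : (0 : ℝ) < Fintype.card Ω := by exact_mod_cast h1
  rw [div_le_iff₀ (by exact_mod_cast h0), card_filter, Fintype.sum_prod_type_right]
  push_cast
  have h2 : ∀ y ∈ (univ : Finset Ω'), (∑ x : Ω, if A x y then (1 : ℝ) else 0) ≤
      B * Fintype.card Ω := by
    intro y _
    have h3 := h y
    rw [div_le_iff₀ h1', card_filter] at h3
    push_cast at h3
    convert h3
  refine (sum_le_sum h2).trans (le_of_eq ?_)
  rw [sum_const, card_univ, nsmul_eq_mul]
  ring

theorem miss_S {a : ℕ} (ha : 1 ≤ a) (haL : a ≤ L) (S : Finset (Fin n)) (hS : S.card = k) :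
    prob (fun lab : Sym2 (Fin n) → Fin L =>
      numCl k (withClique (labelGraph lab a) S) ≠ numCl k (labelGraph lab a) + 1) ≤
    midSum n k ((a : ℝ) / L) + ((a : ℝ) / L) ^ (k.choose 2) := by
  classical
  set T := (powersetCard k (univ : Finset (Fin n))).filter
    (fun S' => 2 ≤ (S ∩ S').card ∧ (S ∩ S').card < k) with hT
  rw [prob_EL]
  have hle : ∀ lab : Sym2 (Fin n) → Fin L,
      (if numCl k (withClique (labelGraph lab a) S) ≠ numCl k (labelGraph lab a) + 1
        then (1 : ℝ) else 0) ≤
      (∑ S' ∈ T, if KT S' \ KT S ⊆ low lab a then (1 : ℝ) else 0) +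
        (if KT S ⊆ low lab a then (1 : ℝ) else 0) := by
    intro lab
    have hn1 : 0 ≤ ∑ S' ∈ T, (if KT S' \ KT S ⊆ low lab a then (1 : ℝ) else 0) :=
      sum_nonneg fun _ _ => by split_ifs <;> norm_num
    have hl : (if numCl k (withClique (labelGraph lab a) S) ≠ numCl k (labelGraph lab a) + 1
        then (1 : ℝ) else 0) ≤ 1 := by split_ifs <;> norm_num
    by_cases h1 : KT S ⊆ low lab a
    · rw [if_pos h1]
      linarith
    rw [if_neg h1, add_zero]
    by_cases h2 : ∃ S' ∈ T, KT S' \ KT S ⊆ low lab a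
    · obtain ⟨S', hS', h3⟩ := h2
      have h4 := single_le_sum (f := fun S' => if KT S' \ KT S ⊆ low lab a then (1 : ℝ) else 0)
        (s := T) (fun S _ => by split_ifs <;> norm_num) hS'
      simp only [if_pos h3] at h4
      exact hl.trans h4
    · rw [if_neg]
      · exact hn1
      rw [not_not, labelGraph_eq]
      apply numCl_plant _ _ hS h1
      intro S' hS' h3 h4 h5
      exact h2 ⟨S', mem_filter.2 ⟨hS', h3, h4⟩, h5⟩
  refine le_trans (le_of_eq ?_) ((EL_mono hle).trans ?_)
  · congr 1
    funext lab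
    congr
  rw [EL_add, EL_sum, EL_in ha haL, card_KT, hS]
  have h6 : ∀ S' ∈ T, EL n L (fun lab => if KT S' \ KT S ⊆ low lab a then (1 : ℝ) else 0) =
      ((a : ℝ) / L) ^ (k.choose 2 - (S ∩ S').card.choose 2) := by
    intro S' hS'
    rw [EL_in ha haL]
    congr 1
    have hc := (mem_powersetCard.1 (mem_filter.1 hS').1).2
    rw [card_sdiff, KT_inter, card_KT, card_KT, hc]
  rw [sum_congr rfl h6]
  refine add_le_add (le_of_eq ?_) le_rfl
  have h7 : ∀ S' ∈ T, (S ∩ S').card ∈ Ico 2 k := by
    intro S' hS'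
    rw [mem_Ico]
    exact (mem_filter.1 hS').2
  rw [← sum_fiberwise_of_maps_to h7]
  unfold midSum
  refine sum_congr rfl fun j hj => ?_
  rw [mem_Ico] at hj
  rw [sum_congr rfl (fun S' hS' => by rw [(mem_filter.1 hS').2]), sum_const, nsmul_eq_mul]
  congr 2
  rw [← card_meet S hS hj.2.le]
  congr 1
  ext S'
  simp only [hT, mem_filter]
  constructor
  · rintro ⟨⟨h, _⟩, h'⟩
    exact ⟨h, h'⟩
  · rintro ⟨h, h'⟩
    exact ⟨⟨h, by omega, by omega⟩, h'⟩

/-- (M) -/
theorem stMiss : StMiss := by
  intro n k a L _ _ ha haL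
  have hp : (0 : ℝ) ≤ (a : ℝ) / L := by positivity
  refine prob_prod_le (fun (lab : Sym2 (Fin n) → Fin L) (S : {S : Finset (Fin n) // S.card = k}) =>
    numCl k (withClique (labelGraph lab a) S.1) ≠ numCl k (labelGraph lab a) + 1) ?_ ?_
  · unfold midSum
    exact add_nonneg (sum_nonneg fun _ _ => mul_nonneg (Nat.cast_nonneg _) (pow_nonneg hp _))
      (pow_nonneg hp _)
  · intro S
    exact miss_S ha haL S.1 S.2

end Pool.Agent.T9h69.QI
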